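import Mathlib
import Pool.Agent.Helper43.LGS.ExtSmall

/-!
# Two cyclic extensions of prime degree with the same data are isomorphic (row EXTP)
-/

set_option autoImplicit false

namespace Pool.Agent.Helper72.LGS

/-- the powers of an element outside a normal subgroup of prime index `p` form a transversal -/
theorem pow_transversal {H : Type*} [Group H] {N : Subgroup H} [N.Normal] {p : ℕ} (hp : p.Prime)
    (hN : N.index = p) {x : H} (hx : x ∉ N) (h : H) : ∃! a : Fin p, (x ^ (a : ℕ))⁻¹ * h ∈ N := by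
  have : Fact p.Prime := ⟨hp⟩
  have hcard : Nat.card (H ⧸ N) = p := hN
  have hx1 : (QuotientGroup.mk x : H ⧸ N) ≠ 1 := by
    intro e
    exact hx ((QuotientGroup.eq_one_iff x).1 e)
  have hgen : (QuotientGroup.mk h : H ⧸ N) ∈ Subgroup.zpowers (QuotientGroup.mk x : H ⧸ N) :=
    mem_zpowers_of_prime_card hcard hx1
  have hord : orderOf (QuotientGroup.mk x : H ⧸ N) = p := orderOf_eq_prime_iff.2
    ⟨by rw [← hcard]; exact pow_card_eq_one', hx1⟩
  obtain ⟨k, hk⟩ := Subgroup.mem_zpowers_iff.1 hgen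
  have hp0 : (0 : ℤ) < p := by exact_mod_cast hp.pos
  have hnn : 0 ≤ k % p := Int.emod_nonneg _ hp0.ne'
  have hlt : k % p < p := Int.emod_lt_of_pos _ hp0
  have key : ∀ a : ℕ, (x ^ a)⁻¹ * h ∈ N ↔
      (QuotientGroup.mk x : H ⧸ N) ^ a = QuotientGroup.mk h := by
    intro a
    rw [← QuotientGroup.mk_pow]
    exact QuotientGroup.eq.symm
  refine ⟨⟨(k % p).toNat, by omega⟩, ?_, ?_⟩
  · show (x ^ ((k % p).toNat))⁻¹ * h ∈ N
    rw [key, ← hk, ← zpow_natCast, Int.toNat_of_nonneg hnn, ← hord, zpow_mod_orderOf]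
  · intro b hb
    have hb' := (key b).1 hb
    apply Fin.ext
    show (b : ℕ) = (k % p).toNat
    have e : (QuotientGroup.mk x : H ⧸ N) ^ (b : ℕ) =
        (QuotientGroup.mk x : H ⧸ N) ^ ((k % p).toNat) := by
      rw [hb', ← hk, ← zpow_natCast _ (k % p).toNat, Int.toNat_of_nonneg hnn, ← hord,
        zpow_mod_orderOf]
    have := pow_inj_mod.1 e
    rw [hord, Nat.mod_eq_of_lt b.2, Nat.mod_eq_of_lt (by omega)] at this
    exact this

/-- powers with exponents in `Fin p` -/
theorem pow_mul_pow_fin {K : Type*} [Group K] {p : ℕ} [NeZero p] (y : K) (a b : Fin p) :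
    y ^ (a : ℕ) * y ^ (b : ℕ) =
      y ^ ((a + b : Fin p) : ℕ) * (if (a : ℕ) + b < p then 1 else y ^ p) := by
  have ha := a.2
  have hb := b.2
  rw [← pow_add, Fin.val_add]
  by_cases hab : (a : ℕ) + b < p
  · rw [if_pos hab, Nat.mod_eq_of_lt hab, mul_one]
  · rw [if_neg hab, ← pow_add]
    congr 1
    rw [Nat.mod_eq_sub_mod (by omega), Nat.mod_eq_of_lt (by omega)]
    omega

theorem ext_prime {H H' : Type*} [Group H] [Group H'] {N : Subgroup H} {N' : Subgroup H'}
    [N.Normal] [N'.Normal] {p : ℕ} (hp : p.Prime) (hN : N.index = p) (hN' : N'.index = p)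
    {x : H} {x' : H'} (hx : x ∉ N) (hx' : x' ∉ N') (ψ : N ≃* N')
    (h1 : ∀ n m : N, (m : H) = x * n * x⁻¹ → (ψ m : H') = x' * ψ n * x'⁻¹)
    (h2 : ∀ m : N, (m : H) = x ^ p → (ψ m : H') = x' ^ p) : Nonempty (H ≃* H') := by
  have hpN : x ^ p ∈ N := by
    rw [← hN]
    exact Subgroup.pow_index_mem N x
  -- conjugation by the inverse
  have hinv : ∀ n m : N, (m : H) = x⁻¹ * n * x → (ψ m : H') = x'⁻¹ * ψ n * x' := by
    intro n m hm
    have e : (n : H) = x * m * x⁻¹ := by rw [hm]; group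
    have := h1 m n e
    rw [this]
    group
  have hconj : ∀ (a : ℕ) (n m : N), (m : H) = (x ^ a)⁻¹ * n * x ^ a →
      (ψ m : H') = (x' ^ a)⁻¹ * ψ n * x' ^ a := by
    intro a
    induction a with
    | zero =>
      intro n m hm
      have : m = n := by
        apply Subtype.ext
        simpa using hm
      rw [this]
      simp
    | succ a ih =>
      intro n m hm
      have hk : (x ^ a)⁻¹ * (n : H) * x ^ a ∈ N := by
        have := (inferInstance : N.Normal).conj_mem n n.2 (x ^ a)⁻¹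
        rwa [inv_inv] at this
      have e1 := ih n ⟨_, hk⟩ rfl
      have e2 := hinv ⟨_, hk⟩ m (by
        rw [hm]
        show (x ^ (a + 1))⁻¹ * (n : H) * x ^ (a + 1) = x⁻¹ * ((x ^ a)⁻¹ * (n : H) * x ^ a) * x
        rw [pow_succ]
        group)
      rw [e2, e1, pow_succ]
      group
  let c : Fin p → Fin p → N := fun a b => if (a : ℕ) + b < p then 1 else ⟨x ^ p, hpN⟩
  have : NeZero p := ⟨hp.ne_zero⟩
  refine ext_table (fun a : Fin p => x ^ (a : ℕ)) (fun a : Fin p => x' ^ (a : ℕ))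
    (pow_transversal hp hN hx) (pow_transversal hp hN' hx') ψ (fun a b => a + b) c ?_ ?_ ?_
  · intro a b
    rw [pow_mul_pow_fin x a b]
    show _ = x ^ ((a + b : Fin p) : ℕ) * ((if (a : ℕ) + b < p then 1 else ⟨x ^ p, hpN⟩ : N) : H)
    by_cases hab : (a : ℕ) + b < p
    · rw [if_pos hab, if_pos hab]; rfl
    · rw [if_neg hab, if_neg hab]
  · intro a b
    rw [pow_mul_pow_fin x' a b]
    show _ = x' ^ ((a + b : Fin p) : ℕ) *
      (ψ (if (a : ℕ) + b < p then 1 else ⟨x ^ p, hpN⟩ : N) : H')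
    by_cases hab : (a : ℕ) + b < p
    · rw [if_pos hab, if_pos hab, map_one]; rfl
    · rw [if_neg hab, if_neg hab, h2 ⟨x ^ p, hpN⟩ rfl]
  · intro a n m hm
    exact hconj a n m hm

end Pool.Agent.Helper72.LGS
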